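import Pool.Agent.Run7.h378.PS.Stm

set_option autoImplicit false

namespace Run7.h409.PS

open MvPolynomial Run7.h378.PS

/-- Setting `X j = 0`. -/
noncomputable def phi {m : ℕ} (j : Fin m) : MvPolynomial (Fin m) ℝ →ₐ[ℝ] MvPolynomial (Fin m) ℝ :=
  aeval (Function.update X j 0)

theorem dvd_sub_phi {m : ℕ} (j : Fin m) (p : MvPolynomial (Fin m) ℝ) : X j ∣ p - phi j p := by
  induction p using MvPolynomial.induction_on with
  | C a =>
    have : phi j (C a) = C a := by
      unfold phi
      rw [aeval_C]
      rfl
    rw [this, sub_self]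
    exact dvd_zero _
  | add p q hp hq =>
    rw [map_add]
    have : p + q - (phi j p + phi j q) = (p - phi j p) + (q - phi j q) := by ring
    rw [this]
    exact dvd_add hp hq
  | mul_X p k hp =>
    rw [map_mul]
    have hX : phi j (X k) = Function.update (X : Fin m → MvPolynomial (Fin m) ℝ) j 0 k := by
      unfold phi
      rw [aeval_X]
    rw [hX]
    by_cases hk : k = j
    · subst hk
      rw [Function.update_self, mul_zero, sub_zero]
      exact Dvd.intro_left _ rfl
    · rw [Function.update_of_ne hk]
      have : p * X k - phi j p * X k = (p - phi j p) * X k := by ring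
      rw [this]
      exact hp.mul_right _

theorem eval_phi {m : ℕ} (j : Fin m) (p : MvPolynomial (Fin m) ℝ) (x : Fin m → ℝ) :
    eval x (phi j p) = eval (Function.update x j 0) p := by
  induction p using MvPolynomial.induction_on with
  | C a =>
    have : phi j (C a) = C a := by
      unfold phi
      rw [aeval_C]
      rfl
    rw [this, eval_C, eval_C]
  | add p q hp hq => rw [map_add, map_add, map_add, hp, hq]
  | mul_X p k hp =>
    rw [map_mul, map_mul, map_mul, hp]
    have hX : phi j (X k) = Function.update (X : Fin m → MvPolynomial (Fin m) ℝ) j 0 k := by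
      unfold phi
      rw [aeval_X]
    rw [hX, eval_X]
    by_cases hk : k = j
    · subst hk
      rw [Function.update_self, Function.update_self, map_zero]
    · rw [Function.update_of_ne hk, Function.update_of_ne hk, eval_X]

theorem step {m : ℕ} (j : Fin m) (Q : MvPolynomial (Fin m) ℝ) (h : SOS (X j ^ 2 * Q)) :
    SOS Q := by
  obtain ⟨r, q, hq⟩ := h
  have h0 : ∀ i, phi j (q i) = 0 := by
    intro i
    apply MvPolynomial.funext
    intro x
    rw [eval_phi, map_zero]
    have h1 : eval (Function.update x j 0) (X j ^ 2 * Q) =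
        ∑ i, (eval (Function.update x j 0) (q i)) ^ 2 := by
      rw [hq, map_sum]
      refine Finset.sum_congr rfl (fun i _ => ?_)
      rw [map_pow]
    have h2 : eval (Function.update x j 0) (X j ^ 2 * Q) = 0 := by
      rw [map_mul, map_pow, eval_X, Function.update_self]
      ring
    rw [h2] at h1
    have h3 := (Finset.sum_eq_zero_iff_of_nonneg (fun i _ => sq_nonneg _)).1 h1.symm i
      (Finset.mem_univ i)
    exact pow_eq_zero_iff (two_ne_zero) |>.1 h3
  have h1 : ∀ i, ∃ c, q i = X j * c := by
    intro i
    have := dvd_sub_phi j (q i)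
    rw [h0 i, sub_zero] at this
    exact this
  choose c hc using h1
  refine ⟨r, c, ?_⟩
  have h2 : X j ^ 2 * Q = X j ^ 2 * ∑ i, c i ^ 2 := by
    rw [hq, Finset.mul_sum]
    refine Finset.sum_congr rfl (fun i _ => ?_)
    rw [hc i]
    ring
  exact mul_left_cancel₀ (pow_ne_zero 2 (X_ne_zero j)) h2

/-- **V**. -/
theorem t_V : S_V := by
  intro m j n
  induction n with
  | zero =>
    intro Q h
    rwa [mul_zero, pow_zero, one_mul] at h
  | succ n ih =>
    intro Q h
    have e : (X j : MvPolynomial (Fin m) ℝ) ^ (2 * (n + 1)) * Q = X j ^ 2 * (X j ^ (2 * n) * Q) := by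
      ring
    rw [e] at h
    exact ih Q (step j _ h)

end Run7.h409.PS
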